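import Mathlib

set_option autoImplicit false

namespace Pool.Agent.Results.MP_5e3b67_co.NoLocalMap

open Finset

/-! ### A sunflower lemma for indexed families -/

lemma sunflower {ι α : Type*} [DecidableEq ι] [DecidableEq α] (m : ℕ) :
    ∀ (k : ℕ) (I : Finset ι) (T : ι → Finset α), (∀ i ∈ I, (T i).card ≤ k) →
      (k + 1).factorial * (m + 1) ^ (k + 1) ≤ I.card →
      ∃ Z : Finset α, ∃ J ⊆ I, m ≤ J.card ∧ (∀ i ∈ J, Z ⊆ T i) ∧
        ∀ i ∈ J, ∀ j ∈ J, i ≠ j → Disjoint (T i \ Z) (T j \ Z) := by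
  intro k
  induction k with
  | zero =>
    intro I T hT hI
    refine ⟨∅, I, Finset.Subset.refl _, by simp at hI; omega, fun i _ => Finset.empty_subset _, ?_⟩
    intro i hi j hj _
    have : T i = ∅ := Finset.card_eq_zero.mp (Nat.le_zero.mp (hT i hi))
    rw [this]
    simp
  | succ k ih =>
    intro I T hT hI
    classical
    -- a maximal pairwise disjoint subfamily
    let F : Finset (Finset ι) := I.powerset.filter
      (fun J => ∀ i ∈ J, ∀ j ∈ J, i ≠ j → Disjoint (T i) (T j))
    have hF : F.Nonempty := ⟨∅, by simp [F]⟩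
    obtain ⟨J, hJF, hJmax⟩ := F.exists_max_image Finset.card hF
    have hJ1 : J ⊆ I := by
      have := (Finset.mem_filter.mp hJF).1
      exact Finset.mem_powerset.mp this
    have hJ2 : ∀ i ∈ J, ∀ j ∈ J, i ≠ j → Disjoint (T i) (T j) := (Finset.mem_filter.mp hJF).2
    by_cases hm : m ≤ J.card
    · refine ⟨∅, J, hJ1, hm, fun i _ => Finset.empty_subset _, ?_⟩
      intro i hi j hj hij
      simpa using hJ2 i hi j hj hij
    push Not at hm
    set U : Finset α := J.biUnion T with hU
    have hUcard : U.card ≤ m * (k + 1) := by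
      calc U.card ≤ ∑ i ∈ J, (T i).card := Finset.card_biUnion_le
        _ ≤ ∑ i ∈ J, (k + 1) := Finset.sum_le_sum (fun i hi => hT i (hJ1 hi))
        _ = J.card * (k + 1) := by rw [Finset.sum_const, smul_eq_mul]
        _ ≤ m * (k + 1) := Nat.mul_le_mul_right _ hm.le
    have hmeet : ∀ i ∈ I \ J, ∃ u ∈ U, u ∈ T i := by
      intro i hi
      rw [Finset.mem_sdiff] at hi
      by_contra hcon
      push Not at hcon
      have hins : insert i J ∈ F := by
        rw [Finset.mem_filter, Finset.mem_powerset]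
        refine ⟨Finset.insert_subset hi.1 hJ1, ?_⟩
        have hdis : ∀ j ∈ J, Disjoint (T i) (T j) := by
          intro j hj
          rw [Finset.disjoint_left]
          intro u hu huj
          exact hcon u (Finset.mem_biUnion.mpr ⟨j, hj, huj⟩) hu
        intro a ha b hb hab
        rw [Finset.mem_insert] at ha hb
        rcases ha with rfl | ha
        · rcases hb with rfl | hb
          · exact absurd rfl hab
          · exact hdis b hb
        · rcases hb with rfl | hb
          · exact (hdis a ha).symm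
          · exact hJ2 a ha b hb hab
      have := hJmax _ hins
      rw [Finset.card_insert_of_notMem hi.2] at this
      omega
    set B : ℕ := (k + 1).factorial * (m + 1) ^ (k + 1) with hB
    have hBpos : 1 ≤ B := Nat.mul_pos (Nat.factorial_pos _) (Nat.pow_pos (Nat.succ_pos _))
    have hex : ∃ u ∈ U, B ≤ (I.filter (fun i => u ∈ T i)).card := by
      by_contra hcon
      push Not at hcon
      have h1 : (I \ J).card ≤ U.card * B := by
        calc (I \ J).card ≤ (U.biUnion (fun u => I.filter (fun i => u ∈ T i))).card := by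
              apply Finset.card_le_card
              intro i hi
              obtain ⟨u, hu, hui⟩ := hmeet i hi
              exact Finset.mem_biUnion.mpr ⟨u, hu, Finset.mem_filter.mpr
                ⟨(Finset.mem_sdiff.mp hi).1, hui⟩⟩
          _ ≤ ∑ u ∈ U, (I.filter (fun i => u ∈ T i)).card := Finset.card_biUnion_le
          _ ≤ ∑ u ∈ U, B := Finset.sum_le_sum (fun u hu => (hcon u hu).le)
          _ = U.card * B := by rw [Finset.sum_const, smul_eq_mul]
      have h2 : I.card ≤ J.card + (I \ J).card := by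
        have := Finset.card_sdiff_add_card I J
        have h3 : (I ∪ J).card = I.card := by rw [Finset.union_eq_left.mpr hJ1]
        omega
      have h4 : U.card * B ≤ m * (k + 1) * B := Nat.mul_le_mul_right _ hUcard
      have h5 : (k + 1 + 1).factorial * (m + 1) ^ (k + 1 + 1) = (k + 2) * (m + 1) * B := by
        rw [hB, Nat.factorial_succ (k + 1), pow_succ]
        ring
      rw [h5] at hI
      nlinarith [hI, h1, h2, h4, hm, hBpos]
    obtain ⟨u, hu, hBu⟩ := hex
    obtain ⟨Z, J', hJ'1, hJ'2, hJ'3, hJ'4⟩ := ih (I.filter (fun i => u ∈ T i))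
      (fun i => (T i).erase u) (by
        intro i hi
        rw [Finset.mem_filter] at hi
        have := hT i hi.1
        rw [Finset.card_erase_of_mem hi.2]
        omega) hBu
    have hJ'I : ∀ i ∈ J', i ∈ I ∧ u ∈ T i := fun i hi => Finset.mem_filter.mp (hJ'1 hi)
    refine ⟨insert u Z, J', fun i hi => (hJ'I i hi).1, hJ'2, ?_, ?_⟩
    · intro i hi
      exact Finset.insert_subset (hJ'I i hi).2 ((hJ'3 i hi).trans (Finset.erase_subset _ _))
    · intro i hi j hj hij
      have h := hJ'4 i hi j hj hij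
      rw [Finset.disjoint_left] at h ⊢
      intro a ha hb
      rw [Finset.mem_sdiff, Finset.mem_insert, not_or] at ha hb
      exact h (Finset.mem_sdiff.mpr ⟨Finset.mem_erase.mpr ⟨ha.2.1, ha.1⟩, ha.2.2⟩)
        (Finset.mem_sdiff.mpr ⟨Finset.mem_erase.mpr ⟨hb.2.1, hb.1⟩, hb.2.2⟩)

/-! ### The cube -/

/-- the discrete cube -/
abbrev Cube (n : ℕ) : Type := Fin n → ZMod 2

lemma card_cube (n : ℕ) : (Finset.univ : Finset (Cube n)).card = 2 ^ n := by
  rw [Finset.card_univ, Fintype.card_fun, ZMod.card, Fintype.card_fin]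

/-- `a` on `P`, `b` elsewhere -/
def mix {n : ℕ} (P : Finset (Fin n)) (a b : Cube n) : Cube n := fun u => if u ∈ P then a u else b u

/-- Fixing the coordinates in `P` loses at most a factor `2 ^ |P|`. -/
lemma card_le_fix {n : ℕ} (P : Finset (Fin n)) (p : Cube n) (A : Finset (Cube n))
    (hA : ∀ x ∈ A, mix P p x ∈ A) :
    A.card ≤ 2 ^ P.card * (A.filter (fun x => ∀ u ∈ P, x u = p u)).card := by
  classical
  have h1 : A.card ≤ ((Finset.univ : Finset (P → ZMod 2)) ×ˢ
      (A.filter (fun x => ∀ u ∈ P, x u = p u))).card := by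
    apply Finset.card_le_card_of_injOn
      (fun x => ((fun u : P => x u), mix P p x))
    · intro x hx
      rw [Finset.mem_coe, Finset.mem_product]
      refine ⟨Finset.mem_univ _, Finset.mem_filter.mpr ⟨hA x hx, ?_⟩⟩
      intro u hu
      simp [mix, hu]
    · intro x _ y _ hxy
      have h2 := congrArg Prod.fst hxy
      have h3 := congrArg Prod.snd hxy
      funext u
      by_cases hu : u ∈ P
      · exact congrFun h2 ⟨u, hu⟩
      · have := congrFun h3 u
        simpa [mix, hu] using this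
  rw [Finset.card_product] at h1
  have h2 : (Finset.univ : Finset (P → ZMod 2)).card = 2 ^ P.card := by
    rw [Finset.card_univ, Fintype.card_fun, ZMod.card, Fintype.card_coe]
  rwa [h2] at h1

open scoped Classical in
/-- Points missing the pattern `p` on each of the disjoint sets `P b` are rare. -/
lemma count_blocks {n : ℕ} {ι : Type*} [DecidableEq ι] (K' : ℕ) (p : Cube n)
    (P : ι → Finset (Fin n)) (J : Finset ι) (hcard : ∀ b ∈ J, (P b).card ≤ K')
    (hdisj : ∀ a ∈ J, ∀ b ∈ J, a ≠ b → Disjoint (P a) (P b)) :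
    ((Finset.univ : Finset (Cube n)).filter (fun x => ∀ b ∈ J, ∃ u ∈ P b, x u ≠ p u)).card
      * (2 ^ K') ^ J.card ≤ 2 ^ n * (2 ^ K' - 1) ^ J.card := by
  induction J using Finset.induction_on with
  | empty => simp
  | insert b₀ J hb₀ ih =>
    have ih' := ih (fun b hb => hcard b (Finset.mem_insert_of_mem hb))
      (fun a ha b hb => hdisj a (Finset.mem_insert_of_mem ha) b (Finset.mem_insert_of_mem hb))
    set A := (Finset.univ : Finset (Cube n)).filter (fun x => ∀ b ∈ J, ∃ u ∈ P b, x u ≠ p u)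
      with hA
    have hclosed : ∀ x ∈ A, mix (P b₀) p x ∈ A := by
      intro x hx
      simp only [hA, Finset.mem_filter, Finset.mem_univ, true_and] at hx ⊢
      intro b hb
      obtain ⟨u, hu, hxu⟩ := hx b hb
      refine ⟨u, hu, ?_⟩
      have hbb : b ≠ b₀ := fun h => hb₀ (h ▸ hb)
      have hd := hdisj b (Finset.mem_insert_of_mem hb) b₀ (Finset.mem_insert_self _ _) hbb
      have hu' : u ∉ P b₀ := Finset.disjoint_left.mp hd hu
      simpa [mix, hu'] using hxu
    have h1 := card_le_fix (P b₀) p A hclosed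
    have h2 : (A.filter (fun x => ∀ u ∈ P b₀, x u = p u)).card +
        (A.filter (fun x => ¬ ∀ u ∈ P b₀, x u = p u)).card = A.card :=
      Finset.card_filter_add_card_filter_not _
    have h3 : (Finset.univ : Finset (Cube n)).filter
        (fun x => ∀ b ∈ insert b₀ J, ∃ u ∈ P b, x u ≠ p u) =
        A.filter (fun x => ¬ ∀ u ∈ P b₀, x u = p u) := by
      ext x
      simp only [hA, Finset.mem_filter, Finset.mem_univ, true_and, Finset.mem_insert,
        forall_eq_or_imp]
      push Not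
      exact And.comm
    rw [h3, Finset.card_insert_of_notMem hb₀]
    set X := (A.filter (fun x => ∀ u ∈ P b₀, x u = p u)).card
    set Y := (A.filter (fun x => ¬ ∀ u ∈ P b₀, x u = p u)).card
    have h4 : A.card ≤ 2 ^ K' * X := h1.trans
      (Nat.mul_le_mul_right _ (Nat.pow_le_pow_right (by norm_num)
        (hcard b₀ (Finset.mem_insert_self _ _))))
    have hpos : 1 ≤ 2 ^ K' := Nat.one_le_two_pow
    have h5 : Y * 2 ^ K' ≤ A.card * (2 ^ K' - 1) := by
      obtain ⟨q, hq⟩ : ∃ q, 2 ^ K' = q + 1 := ⟨2 ^ K' - 1, by omega⟩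
      rw [hq] at h4 ⊢
      rw [Nat.add_sub_cancel]
      nlinarith [h4, h2]
    calc Y * (2 ^ K') ^ (J.card + 1) = (Y * 2 ^ K') * (2 ^ K') ^ J.card := by ring
      _ ≤ (A.card * (2 ^ K' - 1)) * (2 ^ K') ^ J.card := Nat.mul_le_mul_right _ h5
      _ = (A.card * (2 ^ K') ^ J.card) * (2 ^ K' - 1) := by ring
      _ ≤ (2 ^ n * (2 ^ K' - 1) ^ J.card) * (2 ^ K' - 1) := Nat.mul_le_mul_right _ ih'
      _ = 2 ^ n * (2 ^ K' - 1) ^ (J.card + 1) := by ring

/-- hybrid of two points: the second on coordinates below `t`, the first elsewhere -/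
def hyb {n : ℕ} (t : ℕ) (y z : Cube n) : Cube n := fun k => if k.val < t then z k else y k

lemma hyb_zero {n : ℕ} (y z : Cube n) : hyb 0 y z = y := by
  funext k; simp [hyb]

lemma hyb_n {n : ℕ} (y z : Cube n) : hyb n y z = z := by
  funext k; simp [hyb, k.isLt]

/-- flipping a coordinate -/
def flip {n : ℕ} (j : Fin n) (y : Cube n) : Cube n := y + Pi.single j 1

lemma flip_self {n : ℕ} (j : Fin n) (y : Cube n) : flip j y j = y j + 1 := by
  simp [flip]

lemma flip_ne {n : ℕ} {j k : Fin n} (h : k ≠ j) (y : Cube n) : flip j y k = y k := by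
  simp [flip, h]

lemma zmod2_eq_add_one {a b : ZMod 2} (h : a ≠ b) : b = a + 1 := by
  revert h; revert a b; decide

lemma hyb_succ {n : ℕ} {t : ℕ} (ht : t < n) (y z : Cube n) (h : hyb t y z ≠ hyb (t + 1) y z) :
    hyb (t + 1) y z = flip ⟨t, ht⟩ (hyb t y z) := by
  have hother : ∀ k : Fin n, k ≠ ⟨t, ht⟩ → hyb (t + 1) y z k = hyb t y z k := by
    intro k hk
    have hk' : k.val ≠ t := fun h => hk (Fin.ext h)
    simp only [hyb]
    by_cases h1 : k.val < t
    · rw [if_pos (by omega), if_pos h1]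
    · rw [if_neg (by omega), if_neg h1]
  funext k
  by_cases hk : k = ⟨t, ht⟩
  · subst hk
    rw [flip_self]
    apply zmod2_eq_add_one
    intro heq
    apply h
    funext k
    by_cases hk : k = ⟨t, ht⟩
    · subst hk; exact heq
    · exact (hother k hk).symm
  · rw [flip_ne hk, hother k hk]

/-- A weak edge-isoperimetric inequality in the cube. -/
lemma cube_iso {n : ℕ} (G : Cube n → Prop) [DecidablePred G] :
    ((Finset.univ : Finset (Cube n)).filter G).card *
      ((Finset.univ : Finset (Cube n)).filter (fun y => ¬ G y)).card ≤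
    n * (((Finset.univ : Finset (Cube n)).filter
      (fun y => ∃ j, ¬ (G y ↔ G (flip j y)))).card * 2 ^ n) := by
  classical
  suffices hsuff : (((Finset.univ : Finset (Cube n)).filter G) ×ˢ
      ((Finset.univ : Finset (Cube n)).filter (fun y => ¬ G y))).card ≤
      ((Finset.univ : Finset (Fin n)) ×ˢ (((Finset.univ : Finset (Cube n)).filter
      (fun y => ∃ j, ¬ (G y ↔ G (flip j y)))) ×ˢ (Finset.univ : Finset (Cube n)))).card by
    rw [Finset.card_product, Finset.card_product, Finset.card_product, card_cube,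
      Finset.card_univ, Fintype.card_fin] at hsuff
    exact hsuff
  have key : ∀ q : Cube n × Cube n, G q.1 → ¬ G q.2 →
      ∃ t : Fin n, G (hyb t.val q.1 q.2) ∧ ¬ G (hyb (t.val + 1) q.1 q.2) := by
    intro q h1 h2
    by_contra hcon
    push Not at hcon
    have : ∀ t, t ≤ n → G (hyb t q.1 q.2) := by
      intro t
      induction t with
      | zero => intro _; rw [hyb_zero]; exact h1
      | succ t ih =>
        intro ht
        exact hcon ⟨t, ht⟩ (ih (by omega))
    have h3 := this n le_rfl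
    rw [hyb_n] at h3
    exact h2 h3
  let T : Cube n × Cube n → Option (Fin n) := fun q =>
    if h : ∃ t : Fin n, G (hyb t.val q.1 q.2) ∧ ¬ G (hyb (t.val + 1) q.1 q.2) then
      some h.choose else none
  have hT : ∀ q : Cube n × Cube n, G q.1 → ¬ G q.2 → ∃ t : Fin n, T q = some t ∧
      G (hyb t.val q.1 q.2) ∧ ¬ G (hyb (t.val + 1) q.1 q.2) := by
    intro q h1 h2
    have h := key q h1 h2
    refine ⟨h.choose, ?_, h.choose_spec⟩
    simp only [T]
    rw [dif_pos h]
  rcases Nat.eq_zero_or_pos n with hn | hn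
  · subst hn
    have : ((Finset.univ : Finset (Cube 0)).filter G) ×ˢ
      ((Finset.univ : Finset (Cube 0)).filter (fun y => ¬ G y)) = ∅ := by
      rw [Finset.eq_empty_iff_forall_notMem]
      intro q hq
      rw [Finset.mem_product, Finset.mem_filter, Finset.mem_filter] at hq
      obtain ⟨t, -⟩ := key q hq.1.2 hq.2.2
      exact t.elim0
    rw [this]
    simp
  · let t₀ : Fin n := ⟨0, hn⟩
    apply Finset.card_le_card_of_injOn
      (fun q => (((T q).getD t₀), (hyb ((T q).getD t₀).val q.1 q.2,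
        hyb ((T q).getD t₀).val q.2 q.1)))
    · intro q hq
      rw [Finset.mem_coe, Finset.mem_product, Finset.mem_filter, Finset.mem_filter] at hq
      obtain ⟨t, ht, h1, h2⟩ := hT q hq.1.2 hq.2.2
      simp only [ht, Option.getD_some, Finset.coe_product, Set.mem_prod, Finset.mem_coe,
        Finset.mem_univ, Finset.mem_filter, true_and, and_true]
      refine ⟨t, fun hiff => h2 ?_⟩
      by_cases heq : hyb t.val q.1 q.2 = hyb (t.val + 1) q.1 q.2
      · rw [← heq]; exact h1
      · rw [hyb_succ t.isLt _ _ heq]; exact hiff.mp h1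
    · intro q hq q' hq' heq
      simp only [Prod.mk.injEq] at heq
      obtain ⟨e1, e2, e3⟩ := heq
      rw [← e1] at e2 e3
      set t := (T q).getD t₀
      apply Prod.ext
      · funext k
        by_cases hk : k.val < t.val
        · have := congrFun e3 k
          simpa [hyb, hk] using this
        · have := congrFun e2 k
          simpa [hyb, hk] using this
      · funext k
        by_cases hk : k.val < t.val
        · have := congrFun e2 k
          simpa [hyb, hk] using this
        · have := congrFun e3 k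
          simpa [hyb, hk] using this

/-! ### Dependence sets -/

/-- output `i` of `f` is determined by the coordinates in `S` -/
def Determines {n : ℕ} (f : Cube n → Cube n) (i : Fin n) (S : Finset (Fin n)) : Prop :=
  ∀ x y, (∀ j ∈ S, x j = y j) → f x i = f y i

lemma exists_minimal_set {n : ℕ} (f : Cube n → Cube n) (i : Fin n) (K : ℕ)
    (h : ∃ S : Finset (Fin n), S.card ≤ K ∧ Determines f i S) :
    ∃ S : Finset (Fin n), S.card ≤ K ∧ Determines f i S ∧
      ∀ v ∈ S, ∃ x, f x i ≠ f (flip v x) i := by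
  classical
  obtain ⟨S₀, hS₀, hd₀⟩ := h
  obtain ⟨S, hS, hmin⟩ := ((Finset.univ : Finset (Finset (Fin n))).filter
    (fun S => Determines f i S)).exists_min_image Finset.card
    ⟨S₀, Finset.mem_filter.mpr ⟨Finset.mem_univ _, hd₀⟩⟩
  have hSd : Determines f i S := (Finset.mem_filter.mp hS).2
  refine ⟨S, (hmin S₀ (Finset.mem_filter.mpr ⟨Finset.mem_univ _, hd₀⟩)).trans hS₀, hSd, ?_⟩
  intro v hv
  by_contra hcon
  push Not at hcon
  have hdet : Determines f i (S.erase v) := by
    intro x y hxy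
    by_cases hv' : x v = y v
    · apply hSd
      intro j hj
      by_cases hjv : j = v
      · rw [hjv]; exact hv'
      · exact hxy j (Finset.mem_erase.mpr ⟨hjv, hj⟩)
    · rw [hcon x]
      apply hSd
      intro j hj
      by_cases hjv : j = v
      · subst hjv
        rw [flip_self]
        exact (zmod2_eq_add_one hv').symm
      · rw [flip_ne hjv]
        exact hxy j (Finset.mem_erase.mpr ⟨hjv, hj⟩)
  have h1 := hmin (S.erase v) (Finset.mem_filter.mpr ⟨Finset.mem_univ _, hdet⟩)
  have h2 := Finset.card_erase_lt_of_mem hv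
  omega

/-! ### Step 1: small degrees force small `n` -/

section Connectivity

variable {n : ℕ} (S : Fin n → Finset (Fin n))

/-- closed neighbourhood in the input graph -/
def nb (A : Finset (Fin n)) : Finset (Fin n) :=
  A ∪ A.biUnion (fun v => ((Finset.univ : Finset (Fin n)).filter (fun i => v ∈ S i)).biUnion S)

lemma card_nb_le {K Δ : ℕ} (hK : ∀ i, (S i).card ≤ K)
    (hΔ : ∀ v, ((Finset.univ : Finset (Fin n)).filter (fun i => v ∈ S i)).card ≤ Δ)
    (A : Finset (Fin n)) : (nb S A).card ≤ A.card * (1 + Δ * K) := by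
  calc (nb S A).card ≤ A.card + (A.biUnion (fun v =>
        ((Finset.univ : Finset (Fin n)).filter (fun i => v ∈ S i)).biUnion S)).card :=
        Finset.card_union_le _ _
    _ ≤ A.card + ∑ v ∈ A, (((Finset.univ : Finset (Fin n)).filter
          (fun i => v ∈ S i)).biUnion S).card := Nat.add_le_add_left Finset.card_biUnion_le _
    _ ≤ A.card + ∑ v ∈ A, Δ * K := by
        apply Nat.add_le_add_left
        apply Finset.sum_le_sum
        intro v _
        calc (((Finset.univ : Finset (Fin n)).filter (fun i => v ∈ S i)).biUnion S).card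
            ≤ ∑ i ∈ (Finset.univ : Finset (Fin n)).filter (fun i => v ∈ S i), (S i).card :=
              Finset.card_biUnion_le
          _ ≤ ∑ i ∈ (Finset.univ : Finset (Fin n)).filter (fun i => v ∈ S i), K :=
              Finset.sum_le_sum (fun i _ => hK i)
          _ = ((Finset.univ : Finset (Fin n)).filter (fun i => v ∈ S i)).card * K := by
              rw [Finset.sum_const, smul_eq_mul]
          _ ≤ Δ * K := Nat.mul_le_mul_right _ (hΔ v)
    _ = A.card * (1 + Δ * K) := by
        rw [Finset.sum_const, smul_eq_mul]; ring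

lemma card_nb_iter_le {K Δ : ℕ} (hK : ∀ i, (S i).card ≤ K)
    (hΔ : ∀ v, ((Finset.univ : Finset (Fin n)).filter (fun i => v ∈ S i)).card ≤ Δ)
    (v₀ : Fin n) (t : ℕ) : ((nb S)^[t] {v₀}).card ≤ (1 + Δ * K) ^ t := by
  induction t with
  | zero => simp
  | succ t ih =>
    rw [Function.iterate_succ_apply']
    calc (nb S ((nb S)^[t] {v₀})).card ≤ ((nb S)^[t] {v₀}).card * (1 + Δ * K) :=
          card_nb_le S hK hΔ _
      _ ≤ (1 + Δ * K) ^ t * (1 + Δ * K) := Nat.mul_le_mul_right _ ih
      _ = (1 + Δ * K) ^ (t + 1) := (pow_succ _ _).symm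

lemma mem_nb_of_mem {A : Finset (Fin n)} {i v u : Fin n} (hv : v ∈ A) (hvi : v ∈ S i)
    (hui : u ∈ S i) : u ∈ nb S A := by
  classical
  unfold nb
  rw [Finset.mem_union]
  right
  rw [Finset.mem_biUnion]
  refine ⟨v, hv, ?_⟩
  rw [Finset.mem_biUnion]
  exact ⟨i, Finset.mem_filter.mpr ⟨Finset.mem_univ _, hvi⟩, hui⟩

lemma subset_nb (A : Finset (Fin n)) : A ⊆ nb S A := Finset.subset_union_left

/-- The set flipped in the preimage is connected. -/
lemma connected (φ : Equiv.Perm (Cube n)) (hdet : ∀ i, Determines φ i (S i))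
    (j : Fin n) (x x' : Cube n) (hx : ∀ i, i ≠ j → φ x' i = φ x i)
    (B : Finset (Fin n)) (hB : ∀ u ∈ B, x u ≠ x' u) (hBne : B.Nonempty)
    (hout : ∃ u, u ∉ B ∧ x u ≠ x' u) :
    ∃ i, ∃ a ∈ B, ∃ u, a ∈ S i ∧ u ∈ S i ∧ u ∉ B ∧ x u ≠ x' u := by
  by_contra hcon
  push Not at hcon
  have hcases : ∀ i, φ (mix B x' x) i = φ x i ∨ φ (mix B x' x) i = φ x' i := by
    intro i
    by_cases h : ∃ a ∈ B, a ∈ S i
    · obtain ⟨a, ha, hai⟩ := h
      right
      apply hdet i
      intro u hu
      by_cases huB : u ∈ B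
      · simp [mix, huB]
      · simp only [mix, huB, if_false]
        exact hcon i a ha u hai hu huB
    · push Not at h
      left
      apply hdet i
      intro u hu
      have huB : u ∉ B := fun h' => h u h' hu
      simp [mix, huB]
  have hne : ∀ i, i ≠ j → φ (mix B x' x) i = φ x i := by
    intro i hi
    rcases hcases i with h | h
    · exact h
    · rw [h, hx i hi]
  rcases hcases j with h | h
  · have : φ (mix B x' x) = φ x := by
      funext i
      by_cases hi : i = j
      · rw [hi]; exact h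
      · exact hne i hi
    have h2 := φ.injective this
    obtain ⟨b, hb⟩ := hBne
    have h3 := congrFun h2 b
    simp only [mix, hb, if_true] at h3
    exact hB b hb h3.symm
  · have : φ (mix B x' x) = φ x' := by
      funext i
      by_cases hi : i = j
      · rw [hi]; exact h
      · rw [hne i hi, hx i hi]
    have h2 := φ.injective this
    obtain ⟨u, huB, hu⟩ := hout
    have h3 := congrFun h2 u
    simp only [mix, huB, if_false] at h3
    exact hu h3

lemma meets (φ : Equiv.Perm (Cube n)) (hdet : ∀ i, Determines φ i (S i))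
    (L : ℕ) (v₀ : Fin n) (j : Fin n) (x x' : Cube n) (hj : φ x' = flip j (φ x))
    (hL : hammingDist x x' ≤ L) (hv₀ : x v₀ ≠ x' v₀) :
    ∃ u ∈ (nb S)^[L] {v₀}, u ∈ S j := by
  classical
  have hx : ∀ i, i ≠ j → φ x' i = φ x i := fun i hi => by rw [hj, flip_ne hi]
  set D : Finset (Fin n) := Finset.univ.filter (fun u => x u ≠ x' u) with hD
  have hDcard : D.card ≤ L := hL
  have hgrow : ∀ t, D ⊆ (nb S)^[t] {v₀} ∨ t + 1 ≤ (D ∩ (nb S)^[t] {v₀}).card := by
    intro t
    induction t with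
    | zero =>
      right
      have : v₀ ∈ D ∩ (nb S)^[0] {v₀} := by
        simp [hD, hv₀]
      have := Finset.card_pos.mpr ⟨v₀, this⟩
      omega
    | succ t ih =>
      rw [Function.iterate_succ_apply']
      set A := (nb S)^[t] {v₀} with hA
      have hAsub : A ⊆ nb S A := subset_nb S A
      rcases ih with h | h
      · left; exact h.trans hAsub
      · by_cases hDA : D ⊆ A
        · left; exact hDA.trans hAsub
        · right
          obtain ⟨w, hwD, hwA⟩ := Finset.not_subset.mp hDA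
          obtain ⟨i, a, haB, u, hai, hui, huB, hu⟩ := connected S φ hdet j x x' hx (D ∩ A)
            (fun u hu => (Finset.mem_filter.mp (Finset.mem_inter.mp hu).1).2)
            (Finset.card_pos.mp (by omega))
            ⟨w, fun h => hwA (Finset.mem_inter.mp h).2, (Finset.mem_filter.mp hwD).2⟩
          have huD : u ∈ D := Finset.mem_filter.mpr ⟨Finset.mem_univ _, hu⟩
          have huA : u ∉ A := fun h => huB (Finset.mem_inter.mpr ⟨huD, h⟩)
          have hunb : u ∈ nb S A := mem_nb_of_mem S (Finset.mem_inter.mp haB).2 hai hui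
          have hsub : insert u (D ∩ A) ⊆ D ∩ nb S A := by
            apply Finset.insert_subset (Finset.mem_inter.mpr ⟨huD, hunb⟩)
            exact Finset.inter_subset_inter (Finset.Subset.refl _) hAsub
          have h1 := Finset.card_le_card hsub
          rw [Finset.card_insert_of_notMem huB] at h1
          omega
  have hDL : D ⊆ (nb S)^[L] {v₀} := by
    rcases hgrow L with h | h
    · exact h
    · have h1 : (D ∩ (nb S)^[L] {v₀}).card ≤ D.card := Finset.card_le_card Finset.inter_subset_left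
      omega
  have hmeet : ∃ u ∈ S j, x u ≠ x' u := by
    by_contra hcon
    push Not at hcon
    have := hdet j x x' hcon
    rw [hj, flip_self] at this
    exact absurd this (by generalize φ x j = a; revert a; decide)
  obtain ⟨u, hu, hxu⟩ := hmeet
  exact ⟨u, hDL (Finset.mem_filter.mpr ⟨Finset.mem_univ _, hxu⟩), hu⟩

lemma hammingDist_flip (j : Fin n) (y : Cube n) : hammingDist y (flip j y) = 1 := by
  classical
  unfold hammingDist
  rw [Finset.card_eq_one]
  refine ⟨j, ?_⟩
  ext k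
  simp only [Finset.mem_filter, Finset.mem_univ, true_and, Finset.mem_singleton]
  constructor
  · intro h
    by_contra hk
    exact h (flip_ne hk y).symm
  · rintro rfl
    rw [flip_self]
    generalize y k = a
    revert a
    decide

lemma sum_flip (j : Fin n) (y : Cube n) : ∑ i, flip j y i = ∑ i, y i + 1 := by
  classical
  unfold flip
  simp [Finset.sum_add_distrib]

lemma n_le (φ : Equiv.Perm (Cube n)) (hdet : ∀ i, Determines φ i (S i)) {K Δ L : ℕ}
    (hK : ∀ i, (S i).card ≤ K)
    (hΔ : ∀ v, ((Finset.univ : Finset (Fin n)).filter (fun i => v ∈ S i)).card ≤ Δ)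
    (hL : ∀ x y, hammingDist (φ.symm x) (φ.symm y) ≤ L * hammingDist x y)
    (v₀ : Fin n) (hxor : ∀ x, ∑ i, φ x i = x v₀) : n ≤ (1 + Δ * K) ^ L * Δ := by
  classical
  have hall : ∀ j : Fin n, ∃ u ∈ (nb S)^[L] {v₀}, u ∈ S j := by
    intro j
    set y : Cube n := 0 with hy
    set x := φ.symm y with hx
    set x' := φ.symm (flip j y) with hx'
    apply meets S φ hdet L v₀ j x x'
    · rw [hx', hx, Equiv.apply_symm_apply, Equiv.apply_symm_apply]
    · have := hL y (flip j y)
      rw [hammingDist_flip] at this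
      simpa using this
    · rw [← hxor x, ← hxor x', hx', hx, Equiv.apply_symm_apply, Equiv.apply_symm_apply, sum_flip]
      generalize ∑ i, y i = a
      revert a
      decide
  have h1 : (Finset.univ : Finset (Fin n)) ⊆ ((nb S)^[L] {v₀}).biUnion
      (fun v => (Finset.univ : Finset (Fin n)).filter (fun i => v ∈ S i)) := by
    intro j _
    obtain ⟨u, hu, huj⟩ := hall j
    exact Finset.mem_biUnion.mpr ⟨u, hu, Finset.mem_filter.mpr ⟨Finset.mem_univ _, huj⟩⟩
  calc n = (Finset.univ : Finset (Fin n)).card := by simp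
    _ ≤ _ := Finset.card_le_card h1
    _ ≤ ∑ v ∈ (nb S)^[L] {v₀}, ((Finset.univ : Finset (Fin n)).filter (fun i => v ∈ S i)).card :=
        Finset.card_biUnion_le
    _ ≤ ∑ v ∈ (nb S)^[L] {v₀}, Δ := Finset.sum_le_sum (fun v _ => hΔ v)
    _ = ((nb S)^[L] {v₀}).card * Δ := by rw [Finset.sum_const, smul_eq_mul]
    _ ≤ (1 + Δ * K) ^ L * Δ := Nat.mul_le_mul_right _ (card_nb_iter_le S hK hΔ v₀ L)

end Connectivity

/-! ### Step 2: large degrees are impossible -/

/-- extend a partial assignment on `W` by `x` -/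
def ext {n : ℕ} (W : Finset (Fin n)) (w : W → ZMod 2) (x : Cube n) : Cube n :=
  fun u => if h : u ∈ W then w ⟨u, h⟩ else x u

/-- restriction to `W` -/
def res {n : ℕ} (W : Finset (Fin n)) (x : Cube n) : W → ZMod 2 := fun u => x u

open scoped Classical in
lemma core {n : ℕ} (S : Fin n → Finset (Fin n)) (φ : Equiv.Perm (Cube n))
    (hdet : ∀ i, Determines φ i (S i)) (hrel : ∀ i, ∀ v ∈ S i, ∃ x, φ x i ≠ φ (flip v x) i)
    {K L r : ℕ} (hr : 1 ≤ r) (hK : ∀ i, (S i).card ≤ K)
    (hL : ∀ x y, hammingDist (φ.symm x) (φ.symm y) ≤ L * hammingDist x y)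
    (v : Fin n) (hdeg : (K + 1).factorial * (2 ^ (2 ^ K) * (r * (L + 2)) + 1) ^ (K + 1) ≤
      ((Finset.univ : Finset (Fin n)).filter (fun i => v ∈ S i)).card) :
    (2 ^ (K * (L + 2))) ^ r ≤ 4 ^ K * n * (2 ^ (K * (L + 2)) - 1) ^ r := by
  obtain ⟨Z, J, hJI, hJm, hZ, hZd⟩ := sunflower (2 ^ (2 ^ K) * (r * (L + 2))) K
    ((Finset.univ : Finset (Fin n)).filter (fun i => v ∈ S i)) (fun i => (S i).erase v)
    (fun i _ => (Finset.card_erase_le).trans (hK i)) hdeg
  have hvJ : ∀ i ∈ J, v ∈ S i := fun i hi => (Finset.mem_filter.mp (hJI hi)).2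
  set W : Finset (Fin n) := insert v Z with hW
  have hvW : v ∈ W := Finset.mem_insert_self _ _
  have hWS : ∀ i ∈ J, W ⊆ S i := fun i hi =>
    Finset.insert_subset (hvJ i hi) ((hZ i hi).trans (Finset.erase_subset _ _))
  have hmpos : 1 ≤ 2 ^ (2 ^ K) * (r * (L + 2)) :=
    Nat.mul_pos (Nat.pow_pos (by norm_num)) (Nat.mul_pos hr (by omega))
  have hJne : J.Nonempty := Finset.card_pos.mp (by omega)
  have hWK : W.card ≤ K := by
    obtain ⟨i, hi⟩ := hJne
    exact (Finset.card_le_card (hWS i hi)).trans (hK i)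
  -- petals
  set P : Fin n → Finset (Fin n) := fun i => S i \ W with hP
  have hPeq : ∀ i, P i = (S i).erase v \ Z := by
    intro i
    ext u
    simp only [hP, hW, Finset.mem_sdiff, Finset.mem_insert, Finset.mem_erase]
    tauto
  have hPd : ∀ i ∈ J, ∀ j ∈ J, i ≠ j → Disjoint (P i) (P j) := by
    intro i hi j hj hij
    rw [hPeq, hPeq]
    exact hZd i hi j hj hij
  have hPK : ∀ i, (P i).card ≤ K := fun i => (Finset.card_le_card Finset.sdiff_subset).trans (hK i)
  -- witnesses
  have hX : ∀ i : Fin n, ∃ x : Cube n, i ∈ J → φ x i ≠ φ (flip v x) i := by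
    intro i
    by_cases hi : i ∈ J
    · obtain ⟨x, hx⟩ := hrel i v (hvJ i hi)
      exact ⟨x, fun _ => hx⟩
    · exact ⟨0, fun h => absurd h hi⟩
  choose X hX using hX
  -- local functions
  set g : Fin n → ((W → ZMod 2) → ZMod 2) := fun i w => φ (ext W w (X i)) i with hg
  have hcardfun : (Finset.univ : Finset ((W → ZMod 2) → ZMod 2)).card ≤ 2 ^ (2 ^ K) := by
    rw [Finset.card_univ, Fintype.card_fun, Fintype.card_fun, ZMod.card, Fintype.card_coe]
    exact Nat.pow_le_pow_right (by norm_num) (Nat.pow_le_pow_right (by norm_num) hWK)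
  obtain ⟨g₀, -, hg₀⟩ := Finset.exists_le_card_fiber_of_mul_le_card_of_maps_to
    (s := J) (t := (Finset.univ : Finset ((W → ZMod 2) → ZMod 2))) (f := g) (n := r * (L + 2))
    (fun a _ => Finset.mem_univ _) ⟨fun _ => 0, Finset.mem_univ _⟩
    ((Nat.mul_le_mul_right _ hcardfun).trans hJm)
  obtain ⟨J', hJ'sub, hJ'card⟩ := Finset.exists_subset_card_eq hg₀
  have hJ'J : ∀ i ∈ J', i ∈ J ∧ g i = g₀ := fun i hi => Finset.mem_filter.mp (hJ'sub hi)
  let e : Fin r × Fin (L + 2) → Fin n := fun q =>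
    ((J'.equivFinOfCardEq hJ'card).symm (finProdFinEquiv q) : J')
  have heJ : ∀ q, e q ∈ J' := fun q => ((J'.equivFinOfCardEq hJ'card).symm (finProdFinEquiv q)).2
  have heinj : Function.Injective e := by
    intro a b hab
    exact finProdFinEquiv.injective ((J'.equivFinOfCardEq hJ'card).symm.injective
      (Subtype.ext hab))
  -- a global pattern
  obtain ⟨p, hp⟩ : ∃ p : Cube n, ∀ i ∈ J, ∀ u ∈ P i, p u = X i u := by
    refine ⟨fun u => if h : ∃ i, i ∈ J ∧ u ∈ P i then X h.choose u else 0, ?_⟩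
    intro i hi u hu
    have h : ∃ i, i ∈ J ∧ u ∈ P i := ⟨i, hi, hu⟩
    have h1 : h.choose = i := by
      by_contra hne
      have := hPd _ h.choose_spec.1 i hi hne
      exact Finset.disjoint_left.mp this h.choose_spec.2 hu
    simp only
    rw [dif_pos h, h1]
  -- blocks
  set Q : Fin r → Finset (Fin n) := fun b =>
    (Finset.univ : Finset (Fin (L + 2))).biUnion (fun c => P (e (b, c))) with hQ
  have hQK : ∀ b ∈ (Finset.univ : Finset (Fin r)), (Q b).card ≤ K * (L + 2) := by
    intro b _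
    calc (Q b).card ≤ ∑ c : Fin (L + 2), (P (e (b, c))).card := Finset.card_biUnion_le
      _ ≤ ∑ c : Fin (L + 2), K := Finset.sum_le_sum (fun c _ => hPK _)
      _ = K * (L + 2) := by
        rw [Finset.sum_const, smul_eq_mul, Finset.card_univ, Fintype.card_fin]; ring
  have hQd : ∀ a ∈ (Finset.univ : Finset (Fin r)), ∀ b ∈ (Finset.univ : Finset (Fin r)),
      a ≠ b → Disjoint (Q a) (Q b) := by
    intro a _ b _ hab
    rw [Finset.disjoint_left]
    intro u hu hu'
    obtain ⟨c, -, hc⟩ := Finset.mem_biUnion.mp hu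
    obtain ⟨c', -, hc'⟩ := Finset.mem_biUnion.mp hu'
    have hne : e (a, c) ≠ e (b, c') := fun h => hab (congrArg Prod.fst (heinj h))
    exact Finset.disjoint_left.mp
      (hPd _ (hJ'J _ (heJ _)).1 _ (hJ'J _ (heJ _)).1 hne) hc hc'
  obtain ⟨Bad, hBad, hcount⟩ : ∃ Bad : Finset (Cube n),
      (∀ x, x ∈ Bad ↔ ∀ b : Fin r, ∃ u ∈ Q b, x u ≠ p u) ∧
      Bad.card * (2 ^ (K * (L + 2))) ^ r ≤ 2 ^ n * (2 ^ (K * (L + 2)) - 1) ^ r := by
    have hcount := count_blocks (K * (L + 2)) p Q Finset.univ hQK hQd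
    rw [Finset.card_univ, Fintype.card_fin] at hcount
    refine ⟨_, ?_, hcount⟩
    intro x
    simp
  -- robust decoding
  have hdecode : ∀ x : Cube n, ∀ i ∈ J', (∀ u ∈ P i, x u = p u) → φ x i = g₀ (res W x) := by
    intro x i hi hxp
    rw [← (hJ'J i hi).2]
    apply hdet i
    intro u hu
    by_cases huW : u ∈ W
    · simp [ext, res, huW]
    · have huP : u ∈ P i := Finset.mem_sdiff.mpr ⟨hu, huW⟩
      simp only [ext, huW, dif_neg, not_false_eq_true]
      rw [hxp u huP, hp i (hJ'J i hi).1 u huP]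
  have hstable : ∀ y : Cube n, φ.symm y ∉ Bad → ∀ j,
      g₀ (res W (φ.symm y)) = g₀ (res W (φ.symm (flip j y))) := by
    intro y hy j
    rw [hBad] at hy
    push Not at hy
    obtain ⟨b, hb⟩ := hy
    set x := φ.symm y with hx
    set x' := φ.symm (flip j y) with hx'
    set D : Finset (Fin n) := Finset.univ.filter (fun u => x u ≠ x' u) with hD
    have hDcard : D.card ≤ L := by
      have h := hL y (flip j y)
      rw [hammingDist_flip, mul_one] at h
      exact h
    have hc : ∃ c : Fin (L + 2), e (b, c) ≠ j ∧ ∀ u ∈ P (e (b, c)), u ∉ D := by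
      by_contra hcon
      push Not at hcon
      have h1 : (Finset.univ : Finset (Fin (L + 2))) ⊆
          (Finset.univ.filter (fun c => e (b, c) = j)) ∪
          (Finset.univ.filter (fun c => ∃ u ∈ P (e (b, c)), u ∈ D)) := by
        intro c _
        by_cases h : e (b, c) = j
        · exact Finset.mem_union_left _ (Finset.mem_filter.mpr ⟨Finset.mem_univ _, h⟩)
        · exact Finset.mem_union_right _ (Finset.mem_filter.mpr ⟨Finset.mem_univ _, hcon c h⟩)
      have h2 : (Finset.univ.filter (fun c : Fin (L + 2) => e (b, c) = j)).card ≤ 1 := by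
        rw [Finset.card_le_one]
        intro c hc c' hc'
        rw [Finset.mem_filter] at hc hc'
        exact congrArg Prod.snd (heinj (hc.2.trans hc'.2.symm))
      have h3 : (Finset.univ.filter (fun c : Fin (L + 2) =>
          ∃ u ∈ P (e (b, c)), u ∈ D)).card ≤ D.card := by
        have hch : ∀ c : Fin (L + 2), ∃ u : Fin n, (∃ u ∈ P (e (b, c)), u ∈ D) →
            u ∈ P (e (b, c)) ∧ u ∈ D := by
          intro c
          by_cases h : ∃ u ∈ P (e (b, c)), u ∈ D
          · obtain ⟨u, hu⟩ := h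
            exact ⟨u, fun _ => hu⟩
          · exact ⟨j, fun h' => absurd h' h⟩
        choose uc huc using hch
        apply Finset.card_le_card_of_injOn uc
        · intro c hc
          exact (huc c (Finset.mem_filter.mp hc).2).2
        · intro c hc c' hc' hcc
          by_contra hne
          have hne' : e (b, c) ≠ e (b, c') := fun h => hne (congrArg Prod.snd (heinj h))
          have hd := hPd _ (hJ'J _ (heJ (b, c))).1 _ (hJ'J _ (heJ (b, c'))).1 hne'
          have h4 := (huc c (Finset.mem_filter.mp hc).2).1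
          have h5 := (huc c' (Finset.mem_filter.mp hc').2).1
          rw [← hcc] at h5
          exact Finset.disjoint_left.mp hd h4 h5
      have h4 := Finset.card_le_card h1
      have h5 := Finset.card_union_le (Finset.univ.filter (fun c : Fin (L + 2) => e (b, c) = j))
        (Finset.univ.filter (fun c : Fin (L + 2) => ∃ u ∈ P (e (b, c)), u ∈ D))
      rw [Finset.card_univ, Fintype.card_fin] at h4
      omega
    obtain ⟨c, hcj, hcD⟩ := hc
    have hxp : ∀ u ∈ P (e (b, c)), x u = p u := fun u hu =>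
      hb u (Finset.mem_biUnion.mpr ⟨c, Finset.mem_univ _, hu⟩)
    have hx'p : ∀ u ∈ P (e (b, c)), x' u = p u := by
      intro u hu
      rw [← hxp u hu]
      by_contra hne
      exact hcD u hu (Finset.mem_filter.mpr ⟨Finset.mem_univ _, fun h => hne h.symm⟩)
    rw [← hdecode x _ (heJ (b, c)) hxp, ← hdecode x' _ (heJ (b, c)) hx'p, hx, hx',
      Equiv.apply_symm_apply, Equiv.apply_symm_apply, flip_ne hcj]
  -- two values of g₀
  obtain ⟨w₁, w₂, hw⟩ : ∃ w₁ w₂ : W → ZMod 2, g₀ w₁ ≠ g₀ w₂ := by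
    have hJ'ne : J'.Nonempty := by
      apply Finset.card_pos.mp
      rw [hJ'card]
      exact Nat.mul_pos hr (by omega)
    obtain ⟨i, hi⟩ := hJ'ne
    refine ⟨res W (X i), res W (flip v (X i)), ?_⟩
    rw [← (hJ'J i hi).2]
    have h1 : ext W (res W (X i)) (X i) = X i := by
      funext u
      by_cases hu : u ∈ W <;> simp [ext, res, hu]
    have h2 : ext W (res W (flip v (X i))) (X i) = flip v (X i) := by
      funext u
      by_cases hu : u ∈ W
      · simp [ext, res, hu]
      · have huv : u ≠ v := fun h => hu (h ▸ hvW)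
        simp only [ext, hu, dif_neg, not_false_eq_true]
        rw [flip_ne huv]
    simp only [hg]
    rw [h1, h2]
    exact hX i (hJ'J i hi).1
  let G : Cube n → Prop := fun y => g₀ (res W (φ.symm y)) = g₀ w₁
  have hlow : ∀ (w : W → ZMod 2) (H : Cube n → Prop) [DecidablePred H],
      (∀ y, res W (φ.symm y) = w → H y) →
      2 ^ n ≤ 2 ^ K * ((Finset.univ : Finset (Cube n)).filter H).card := by
    intro w H _ hH
    have h1 := card_le_fix W (ext W w 0) Finset.univ (fun _ _ => Finset.mem_univ _)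
    rw [card_cube] at h1
    have h2 : ((Finset.univ : Finset (Cube n)).filter
        (fun x => ∀ u ∈ W, x u = ext W w 0 u)).card ≤
        ((Finset.univ : Finset (Cube n)).filter H).card := by
      apply Finset.card_le_card_of_injOn φ
      · intro x hx
        rw [Finset.mem_coe, Finset.mem_filter] at hx ⊢
        refine ⟨Finset.mem_univ _, hH _ ?_⟩
        rw [Equiv.symm_apply_apply]
        funext u
        have := hx.2 u u.2
        simpa [ext, res] using this
      · exact φ.injective.injOn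
    calc 2 ^ n ≤ 2 ^ W.card * _ := h1
      _ ≤ 2 ^ K * _ := Nat.mul_le_mul (Nat.pow_le_pow_right (by norm_num) hWK) h2
  have hG1 : 2 ^ n ≤ 2 ^ K * ((Finset.univ : Finset (Cube n)).filter G).card :=
    hlow w₁ G (fun y hy => by simp only [G]; rw [hy])
  have hG2 : 2 ^ n ≤ 2 ^ K * ((Finset.univ : Finset (Cube n)).filter (fun y => ¬ G y)).card :=
    hlow w₂ (fun y => ¬ G y) (fun y hy => by simp only [G]; rw [hy]; exact hw.symm)
  have hiso := cube_iso G
  have hsens : ((Finset.univ : Finset (Cube n)).filter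
      (fun y => ∃ j, ¬ (G y ↔ G (flip j y)))).card ≤ Bad.card := by
    apply Finset.card_le_card_of_injOn φ.symm
    · intro y hy
      rw [Finset.mem_coe, Finset.mem_filter] at hy
      obtain ⟨j, hj⟩ := hy.2
      by_contra hcon
      apply hj
      simp only [G]
      rw [hstable y hcon j]
    · exact φ.symm.injective.injOn
  set a := ((Finset.univ : Finset (Cube n)).filter G).card
  set b := ((Finset.univ : Finset (Cube n)).filter (fun y => ¬ G y)).card
  set s := ((Finset.univ : Finset (Cube n)).filter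
      (fun y => ∃ j, ¬ (G y ↔ G (flip j y)))).card
  set M := 2 ^ (K * (L + 2))
  have h1 : 2 ^ n * 2 ^ n ≤ (4 ^ K * n * Bad.card) * 2 ^ n := by
    calc 2 ^ n * 2 ^ n ≤ (2 ^ K * a) * (2 ^ K * b) := Nat.mul_le_mul hG1 hG2
      _ = 4 ^ K * (a * b) := by
        rw [show (4 : ℕ) = 2 * 2 by norm_num, mul_pow]; ring
      _ ≤ 4 ^ K * (n * (s * 2 ^ n)) := Nat.mul_le_mul_left _ hiso
      _ ≤ 4 ^ K * (n * (Bad.card * 2 ^ n)) :=
        Nat.mul_le_mul_left _ (Nat.mul_le_mul_left _ (Nat.mul_le_mul_right _ hsens))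
      _ = (4 ^ K * n * Bad.card) * 2 ^ n := by ring
  have hpos : 0 < 2 ^ n := Nat.pow_pos (by norm_num)
  have h2 : 2 ^ n ≤ 4 ^ K * n * Bad.card := Nat.le_of_mul_le_mul_right h1 hpos
  have h3 : 2 ^ n * M ^ r ≤ 2 ^ n * (4 ^ K * n * (M - 1) ^ r) := by
    calc 2 ^ n * M ^ r ≤ (4 ^ K * n * Bad.card) * M ^ r := Nat.mul_le_mul_right _ h2
      _ = 4 ^ K * n * (Bad.card * M ^ r) := by ring
      _ ≤ 4 ^ K * n * (2 ^ n * (M - 1) ^ r) := Nat.mul_le_mul_left _ hcount
      _ = 2 ^ n * (4 ^ K * n * (M - 1) ^ r) := by ring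
  exact Nat.le_of_mul_le_mul_left h3 hpos

/-! ### Numerics -/

lemma two_mul_pred_pow_le (M : ℕ) (hM : 1 ≤ M) : (M - 1) ^ M * 2 ≤ M ^ M := by
  obtain ⟨q, rfl⟩ : ∃ q, M = q + 1 := ⟨M - 1, by omega⟩
  rw [Nat.add_sub_cancel]
  rcases Nat.eq_zero_or_pos q with hq | hq
  · subst hq; simp
  · have h1 : (1 : ℝ) + ((q + 1 : ℕ) : ℝ) * (1 / (q : ℝ)) ≤ (1 + 1 / (q : ℝ)) ^ (q + 1) := by
      apply one_add_mul_le_pow
      have : (0 : ℝ) ≤ 1 / (q : ℝ) := by positivity
      linarith
    have hq' : (0 : ℝ) < q := by exact_mod_cast hq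
    have h2 : (2 : ℝ) ≤ (1 + 1 / (q : ℝ)) ^ (q + 1) := by
      refine le_trans ?_ h1
      have : (1 : ℝ) ≤ ((q + 1 : ℕ) : ℝ) * (1 / (q : ℝ)) := by
        rw [mul_one_div, le_div_iff₀ hq']
        push_cast
        linarith
      linarith
    have h3 : (q : ℝ) ^ (q + 1) * 2 ≤ ((q : ℝ) + 1) ^ (q + 1) := by
      calc (q : ℝ) ^ (q + 1) * 2 ≤ (q : ℝ) ^ (q + 1) * (1 + 1 / (q : ℝ)) ^ (q + 1) :=
            mul_le_mul_of_nonneg_left h2 (by positivity)
        _ = ((q : ℝ) + 1) ^ (q + 1) := by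
            rw [← mul_pow]
            congr 1
            field_simp
    exact_mod_cast h3

lemma poly_lt_two_pow (B D : ℕ) : ∃ ℓ₀ : ℕ, ∀ ℓ, ℓ₀ ≤ ℓ → B * (ℓ + 1) ^ D < 2 ^ ℓ := by
  have h := tendsto_pow_const_div_const_pow_of_one_lt D (r := (2 : ℝ)) (by norm_num)
  have h1 : (0 : ℝ) < 1 / (2 * ((B : ℝ) + 1)) := by positivity
  have h2 := h.eventually (gt_mem_nhds h1)
  rw [Filter.eventually_atTop] at h2
  obtain ⟨ℓ₀, hℓ₀⟩ := h2
  refine ⟨ℓ₀, ?_⟩
  intro ℓ hℓ
  have h3 := hℓ₀ (ℓ + 1) (by omega)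
  rw [div_lt_div_iff₀ (by positivity) (by positivity)] at h3
  have h4 : ((B * (ℓ + 1) ^ D : ℕ) : ℝ) < ((2 ^ ℓ : ℕ) : ℝ) := by
    push_cast at h3 ⊢
    have h5 : (0 : ℝ) ≤ ((ℓ : ℝ) + 1) ^ D := by positivity
    rw [pow_succ] at h3
    nlinarith [h3, h5]
  exact_mod_cast h4

lemma numeric (K L : ℕ) : ∃ N : ℕ, ∀ n, N ≤ n → ∃ r Δ : ℕ, 1 ≤ r ∧
    (K + 1).factorial * (2 ^ (2 ^ K) * (r * (L + 2)) + 1) ^ (K + 1) ≤ Δ ∧
    (1 + Δ * K) ^ L * Δ < n ∧
    4 ^ K * n * (2 ^ (K * (L + 2)) - 1) ^ r < (2 ^ (K * (L + 2))) ^ r := by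
  set M := 2 ^ (K * (L + 2)) with hM
  have hMpos : 1 ≤ M := Nat.one_le_two_pow
  set C := 2 ^ (2 ^ K) * (M * (2 * K + 1) * (L + 2)) + 1 with hC
  set A := (K + 1).factorial * C ^ (K + 1) with hA
  obtain ⟨ℓ₀, hℓ₀⟩ := poly_lt_two_pow ((1 + A * K) ^ L * A) ((K + 1) * L + (K + 1))
  refine ⟨2 ^ ℓ₀, ?_⟩
  intro n hn
  have hn1 : 1 ≤ n := le_trans Nat.one_le_two_pow hn
  set ℓ := Nat.log 2 n with hℓ
  have hℓ₀ℓ : ℓ₀ ≤ ℓ := Nat.le_log_of_pow_le (by norm_num) hn
  have hℓn : 2 ^ ℓ ≤ n := Nat.pow_log_le_self 2 (by omega)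
  have hnℓ : n < 2 ^ (ℓ + 1) := Nat.lt_pow_succ_log_self (by norm_num) n
  set s := ℓ + 2 * K + 1 with hs
  have hs' : s ≤ (2 * K + 1) * (ℓ + 1) := by rw [hs]; nlinarith
  refine ⟨M * s, A * (ℓ + 1) ^ (K + 1), Nat.mul_pos hMpos (by omega), ?_, ?_, ?_⟩
  · have h1 : 2 ^ (2 ^ K) * (M * s * (L + 2)) + 1 ≤ C * (ℓ + 1) := by
      calc 2 ^ (2 ^ K) * (M * s * (L + 2)) + 1
          ≤ 2 ^ (2 ^ K) * (M * ((2 * K + 1) * (ℓ + 1)) * (L + 2)) + 1 := by gcongr
        _ ≤ 2 ^ (2 ^ K) * (M * ((2 * K + 1) * (ℓ + 1)) * (L + 2)) + (ℓ + 1) := by omega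
        _ = C * (ℓ + 1) := by rw [hC]; ring
    calc (K + 1).factorial * (2 ^ (2 ^ K) * (M * s * (L + 2)) + 1) ^ (K + 1)
        ≤ (K + 1).factorial * (C * (ℓ + 1)) ^ (K + 1) := by gcongr
      _ = A * (ℓ + 1) ^ (K + 1) := by rw [hA, mul_pow]; ring
  · have hpos : 1 ≤ (ℓ + 1) ^ (K + 1) := Nat.one_le_pow _ _ (by omega)
    calc (1 + A * (ℓ + 1) ^ (K + 1) * K) ^ L * (A * (ℓ + 1) ^ (K + 1))
        ≤ ((1 + A * K) * (ℓ + 1) ^ (K + 1)) ^ L * (A * (ℓ + 1) ^ (K + 1)) := by
          gcongr
          nlinarith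
      _ = (1 + A * K) ^ L * A * (ℓ + 1) ^ ((K + 1) * L + (K + 1)) := by
          rw [mul_pow, pow_add (ℓ + 1) ((K + 1) * L) (K + 1), pow_mul]; ring
      _ < 2 ^ ℓ := hℓ₀ ℓ hℓ₀ℓ
      _ ≤ n := hℓn
  · have h1 : (M - 1) ^ (M * s) * 2 ^ s ≤ M ^ (M * s) := by
      rw [pow_mul, pow_mul, ← mul_pow]
      exact Nat.pow_le_pow_left (two_mul_pred_pow_le M hMpos) s
    have h2 : 4 ^ K * n < 2 ^ s := by
      have : 2 ^ s = 4 ^ K * 2 ^ (ℓ + 1) := by
        rw [hs, show (4 : ℕ) = 2 ^ 2 by norm_num, ← pow_mul, ← pow_add]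
        congr 1
        ring
      rw [this]
      exact Nat.mul_lt_mul_of_pos_left hnℓ (by positivity)
    rcases Nat.eq_zero_or_pos ((M - 1) ^ (M * s)) with h0 | h0
    · rw [h0, mul_zero]
      exact Nat.pow_pos (by omega)
    · calc 4 ^ K * n * (M - 1) ^ (M * s) < 2 ^ s * (M - 1) ^ (M * s) :=
            Nat.mul_lt_mul_of_pos_right h2 h0
        _ = (M - 1) ^ (M * s) * 2 ^ s := by ring
        _ ≤ M ^ (M * s) := h1

/-! ### Main theorem -/

/-- `φ` is a mapping from the dictator `DIC_n` to the parity `XOR_n`. -/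
def MapsDicToXor {n : ℕ} (hn : 0 < n) (φ : Equiv.Perm (Fin n → ZMod 2)) : Prop :=
  ∀ x, ∑ i, φ x i = x ⟨0, hn⟩

/-- `f` is `K`-local. -/
def IsLocal {n : ℕ} (K : ℕ) (f : (Fin n → ZMod 2) → (Fin n → ZMod 2)) : Prop :=
  ∀ i, ∃ S : Finset (Fin n), S.card ≤ K ∧ ∀ x y, (∀ j ∈ S, x j = y j) → f x i = f y i

/-- `f` is `L`-Lipschitz for the Hamming distance. -/
def IsLipschitz {n : ℕ} (L : ℝ) (f : (Fin n → ZMod 2) → (Fin n → ZMod 2)) : Prop :=
  ∀ x y, (hammingDist (f x) (f y) : ℝ) ≤ L * hammingDist x y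

/-- For all constants `K`, `L`, for all large `n` no `K`-local mapping from `DIC_n` to `XOR_n`
has an `L`-Lipschitz inverse. -/
theorem result (K : ℕ) (L : ℝ) : ∃ N : ℕ, ∀ n, N ≤ n → ∀ (hn : 0 < n)
    (φ : Equiv.Perm (Fin n → ZMod 2)), MapsDicToXor hn φ → IsLocal K φ →
      ¬ IsLipschitz L φ.symm := by
  classical
  obtain ⟨N, hN⟩ := numeric K ⌈L⌉₊
  refine ⟨N, ?_⟩
  intro n hNn hn φ hxor hloc hlip
  obtain ⟨r, Δ, hr, h1, h2, h3⟩ := hN n hNn
  have hloc' : ∀ i, ∃ S : Finset (Fin n), S.card ≤ K ∧ Determines φ i S ∧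
      ∀ v ∈ S, ∃ x, φ x i ≠ φ (flip v x) i := fun i => exists_minimal_set φ i K (hloc i)
  choose S hS1 hS2 hS3 using hloc'
  have hL : ∀ x y, hammingDist (φ.symm x) (φ.symm y) ≤ ⌈L⌉₊ * hammingDist x y := by
    intro x y
    have h4 := hlip x y
    have h5 : (hammingDist (φ.symm x) (φ.symm y) : ℝ) ≤ (⌈L⌉₊ : ℝ) * hammingDist x y :=
      h4.trans (mul_le_mul_of_nonneg_right (Nat.le_ceil L) (by positivity))
    exact_mod_cast h5
  by_cases hdeg : ∀ v, ((Finset.univ : Finset (Fin n)).filter (fun i => v ∈ S i)).card ≤ Δ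
  · have := n_le S φ hS2 hS1 hdeg hL ⟨0, hn⟩ hxor
    omega
  · push Not at hdeg
    obtain ⟨v, hv⟩ := hdeg
    have := core S φ hS2 hS3 hr hS1 hL v (h1.trans (by convert hv.le))
    omega

end Pool.Agent.Results.MP_5e3b67_co.NoLocalMap
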